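import Mathlib
import Pool.Agent.H723R2.LSWWander

/-!
Statements for the geometry of the wandering domains of `f₀` which contain integers.
`f₀`, `T`, `Wild` are in `Pool.Agent.H723R2.LSWBase`; `FatouSet`, `FatouComponent` in
`Pool.Agent.H384R2.Fatou`.
-/

set_option autoImplicit false

open Filter Topology Metric Set

namespace Pool.Agent.Y282.WD

open Pool.Agent.H384R2.Fatou Pool.Agent.H723R2.LSW

/-- the modulus of the second Taylor coefficient of `f₀` at the integer `m` -/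
noncomputable def bt (m : ℤ) : ℝ := Real.pi ^ 2 / 4 * |(m : ℝ) + 1 / 2|

/-- the limiting radius -/
noncomputable def rho (m : ℤ) : ℝ := Real.exp (-∑' i : ℕ, Real.log (bt (T^[i] m)) / 2 ^ (i + 1))

/-- `f₀ (m + h) = T m ± bt m h ^ 2 + O(|h| ^ 3 + bt m |h| ^ 4)` -/
def S_NEAR : Prop := ∃ C : ℝ, 1 ≤ C ∧ ∀ (m : ℤ) (z : ℂ), ‖z - m‖ ≤ 1 →
  |‖f₀ z - (T m : ℂ)‖ - bt m * ‖z - m‖ ^ 2| ≤ C * ‖z - m‖ ^ 3 * (1 + bt m * ‖z - m‖)

/-- lower bound in the disc of radius `1/2`; `m` is the only critical point there -/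
def S_LOW : Prop := ∃ c : ℝ, 0 < c ∧ ∃ N : ℝ, ∀ m : ℤ, N ≤ bt m → ∀ z : ℂ, ‖z - m‖ ≤ 1 / 2 →
  c * bt m * ‖z - m‖ ^ 2 ≤ ‖f₀ z - (T m : ℂ)‖ ∧ (z ≠ m → deriv f₀ z ≠ 0)

/-- elementary facts on `bt` and `rho` -/
def S_TAIL : Prop :=
  (∀ m : ℤ, 1 < bt m ∧ bt (T m) ≤ 2 * bt m ∧ bt m ≤ 3 * bt (T m)) ∧
  ∀ m : ℤ, 0 < rho m ∧ rho (T m) = bt m * rho m ^ 2 ∧ 1 ≤ 2 * bt m * rho m ∧ bt m * rho m ≤ 3

/-- Schottky: on compact subsets of the component of `n` the orbits stay at bounded distance of the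
orbit of `n` -/
def S_SCH : Prop := ∀ n : ℤ, Wild n → ∀ K : Set ℂ, IsCompact K → K ⊆ FatouComponent f₀ (n : ℂ) →
  ∃ M : ℝ, ∀ᶠ j : ℕ in atTop, ∀ z ∈ K, ‖f₀^[j] z - ((T^[j] n : ℤ) : ℂ)‖ ≤ M

/-- a Harnack type inequality -/
def S_HAR : Prop := ∀ (h : ℂ → ℂ) (z : ℂ) (r B : ℝ), 0 < r → DifferentiableOn ℂ h (ball z r) →
  (∀ w ∈ ball z r, ‖h w‖ ≤ B) → ∀ w ∈ ball z (r / 2), 3 * ‖h z‖ - 2 * B ≤ ‖h w‖

/-- `f₀` is large on large squares -/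
def S_LOOP : Prop := ∀ R : ℝ, ∀ᶠ m : ℕ in atTop, ∀ z : ℂ, max |z.re| |z.im| = 2 * m + 1 / 2 →
  R < ‖f₀ z‖

/-- backward invariance of the Fatou set, and components with bounded image tracts -/
def S_BACK : Prop := ∀ z : ℂ, f₀ z ∈ FatouSet f₀ → z ∈ FatouSet f₀

end Pool.Agent.Y282.WD
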