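import Mathlib
import Pool.Agent.Y282.WD.Stm

/-! statement of the local involution -/

set_option autoImplicit false

open Filter Topology Metric Set

namespace Pool.Agent.Y282.WD

open Pool.Agent.H384R2.Fatou Pool.Agent.H723R2.LSW

/-- the deck involution of `f₀` near an integer of large modulus -/
def S_INV : Prop := ∃ N : ℝ, ∀ m : ℤ, N ≤ bt m → ∃ σ : ℂ → ℂ,
  ContinuousOn σ (ball (m : ℂ) (5 / bt m)) ∧ σ m = m ∧
  (∀ z ∈ ball (m : ℂ) (5 / bt m), f₀ (σ z) = f₀ z ∧ (z ≠ m → σ z ≠ z)) ∧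
  ∀ z ∈ ball (m : ℂ) (5 / bt m), ∀ w ∈ ball (m : ℂ) (5 / bt m), f₀ w = f₀ z → w = z ∨ w = σ z

end Pool.Agent.Y282.WD
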