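import Pool.Agent.Y282.WD.Fast
import Pool.Agent.Y282.WD.Stm2

/-!
Geometry of the wandering domains of `f₀` which contain integers: degree two, assembly.
-/

set_option autoImplicit false

open Filter Topology Metric Set

namespace Pool.Agent.Y282.WD

open Pool.Agent.H384R2.Fatou Pool.Agent.H723R2.LSW

/-- fibres have two points -/
theorem two_preimages (hB : S_BACK) {m : ℤ} {σ : ℂ → ℂ}
    (hsub : FatouComponent f₀ (m : ℂ) ⊆ ball (m : ℂ) (5 / bt m))
    (hσc : ContinuousOn σ (ball (m : ℂ) (5 / bt m))) (hσm : σ m = m)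
    (hσ : ∀ z ∈ ball (m : ℂ) (5 / bt m), f₀ (σ z) = f₀ z ∧ (z ≠ m → σ z ≠ z))
    (hσ2 : ∀ z ∈ ball (m : ℂ) (5 / bt m), ∀ w ∈ ball (m : ℂ) (5 / bt m), f₀ w = f₀ z →
      w = z ∨ w = σ z)
    {w : ℂ} (hw : w ∈ FatouComponent f₀ ((T m : ℤ) : ℂ)) (hwm : w ≠ (T m : ℂ)) :
    {z | z ∈ FatouComponent f₀ (m : ℂ) ∧ f₀ z = w}.ncard = 2 := by
  have hbd : Bornology.IsBounded (FatouComponent f₀ (m : ℂ)) := isBounded_ball.subset hsub
  have hs := surj hB hbd
  rw [← hs] at hw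
  obtain ⟨z, hz, rfl⟩ := hw
  have hzm : z ≠ m := by
    rintro rfl
    exact hwm (f₀_int m)
  have hmU : (m : ℂ) ∈ FatouComponent f₀ (m : ℂ) := mem_connectedComponentIn (int_mem_fatou m)
  have hσU : σ '' FatouComponent f₀ (m : ℂ) ⊆ FatouComponent f₀ (m : ℂ) := by
    apply IsPreconnected.subset_connectedComponentIn
    · exact isPreconnected_connectedComponentIn.image _ (hσc.mono hsub)
    · exact ⟨m, hmU, hσm⟩
    · rintro _ ⟨x, hx, rfl⟩
      apply hB
      rw [(hσ x (hsub hx)).1]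
      exact fatou_forward f₀_open (connectedComponentIn_subset _ _ hx)
  have hset : {y | y ∈ FatouComponent f₀ (m : ℂ) ∧ f₀ y = f₀ z} = {z, σ z} := by
    ext y
    simp only [Set.mem_setOf_eq, Set.mem_insert_iff, Set.mem_singleton_iff]
    constructor
    · rintro ⟨h1, h2⟩
      exact hσ2 z (hsub hz) y (hsub h1) h2
    · rintro (rfl | rfl)
      · exact ⟨hz, rfl⟩
      · exact ⟨hσU ⟨z, hz, rfl⟩, (hσ z (hsub hz)).1⟩
  rw [hset]
  exact Set.ncard_pair ((hσ z (hsub hz)).2 hzm).symm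

theorem bt_ge {m : ℤ} {M : ℝ} (hM : 1 ≤ M) (h : M ≤ |(m : ℝ)|) : M ≤ bt m := by
  unfold bt
  have h1 : |((m : ℤ) : ℝ)| ≤ |(m : ℝ) + 1 / 2| + 1 / 2 := by
    have := abs_sub_abs_le_abs_sub ((m : ℝ)) (-(1 / 2))
    rw [sub_neg_eq_add, abs_neg, abs_of_pos (by norm_num : (0 : ℝ) < 1 / 2)] at this
    linarith
  have h2 : (9 : ℝ) / 4 ≤ Real.pi ^ 2 / 4 := by nlinarith [Real.pi_gt_three]
  have h3 : (0 : ℝ) ≤ |(m : ℝ) + 1 / 2| := abs_nonneg _
  nlinarith

/-- the local structure for large orbits -/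
theorem shape (hN : S_NEAR) (hL : S_LOW) (hT : S_TAIL) (hS : S_SCH) (hH : S_HAR) (hLo : S_LOOP)
    (hB : S_BACK) (hI : S_INV) : ∃ C : ℝ, 1 ≤ C ∧ ∀ n : ℤ, Wild n →
      (∀ ε : ℝ, 0 < ε → ∀ᶠ k : ℕ in atTop, FatouComponent f₀ ((T^[k] n : ℤ) : ℂ) ⊆
        ball ((T^[k] n : ℤ) : ℂ) ε) ∧
      (∀ k : ℕ, Bornology.IsBounded (FatouComponent f₀ ((T^[k] n : ℤ) : ℂ)) ∧
        f₀ '' FatouComponent f₀ ((T^[k] n : ℤ) : ℂ) = FatouComponent f₀ ((T^[k + 1] n : ℤ) : ℂ)) ∧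
      (∀ z ∈ FatouComponent f₀ (n : ℂ), Good n z) ∧
      ∀ M : ℝ, C ≤ M → (∀ j : ℕ, M ≤ |((T^[j] n : ℤ) : ℝ)|) →
        ball (n : ℂ) ((1 - C / M ^ 2) * rho n) ⊆ FatouComponent f₀ (n : ℂ) ∧
        FatouComponent f₀ (n : ℂ) ⊆ closedBall (n : ℂ) ((1 + C / M ^ 2) * rho n) ∧
        (∀ z ∈ FatouComponent f₀ (n : ℂ), z ≠ n → deriv f₀ z ≠ 0) ∧
        ∀ w ∈ FatouComponent f₀ ((T n : ℤ) : ℂ), w ≠ (T n : ℂ) →
          {z | z ∈ FatouComponent f₀ (n : ℂ) ∧ f₀ z = w}.ncard = 2 := by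
  obtain ⟨A, C1, B, c, hK⟩ := exists_consts hN hL
  obtain ⟨N, hNI⟩ := hI
  have hB0 : 0 < B := B_pos hK hT
  have hC1 := hK.h1
  refine ⟨max (2 * C1) (max B (max N 12)), ?_, fun n hw => ⟨?_, ?_, fun z hz => fast hK hT hS hH hw hz, ?_⟩⟩
  · exact le_trans (by norm_num : (1 : ℝ) ≤ 12)
      (le_trans (le_trans (le_max_right _ _) (le_max_right _ _)) (le_max_right _ _))
  · intro ε hε
    filter_upwards [eventually_big hK hT hw B, eventually_big hK hT hw (4 / ε)] with k h1 h2 z hz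
    have h3 := outer hK hT hS le_rfl (wild_iter hw k) h1 hz
    have h4 := delta_le hK hT (B' := B) le_rfl
    obtain ⟨hr0, -, -, hr2⟩ := hT.2 (T^[k] n)
    have h5 := h2 0
    have hb := bt_pos (T^[k] n) hT
    simp only [Function.iterate_zero, id_eq] at h5
    rw [div_le_iff₀ hε] at h5
    rw [mem_ball, dist_eq_norm]
    refine lt_of_le_of_lt h3 ?_
    have h6 : (1 + 2 * (C1 / B ^ 2)) * rho (T^[k] n) ≤ 11 / 10 * rho (T^[k] n) := by
      apply mul_le_mul_of_nonneg_right _ hr0.le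
      linarith
    refine lt_of_le_of_lt h6 ?_
    by_contra hcon
    push Not at hcon
    have h7 : ε * bt (T^[k] n) ≤ 11 / 10 * rho (T^[k] n) * bt (T^[k] n) := by gcongr
    nlinarith
  · intro k
    have hb := bounded hK hT hS hLo hw k
    refine ⟨hb, ?_⟩
    rw [surj hB hb, Function.iterate_succ_apply']
  · intro M hM hj
    have hM12 : 12 ≤ M := le_trans (le_trans (le_trans (le_max_right _ _) (le_max_right _ _))
      (le_max_right _ _)) hM
    have hM1 : 1 ≤ M := by linarith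
    have hMB : B ≤ M := le_trans (le_trans (le_max_left _ _) (le_max_right _ _)) hM
    have hMN : N ≤ M := le_trans (le_trans (le_trans (le_max_left _ _) (le_max_right _ _))
      (le_max_right _ _)) hM
    set C := max (2 * C1) (max B (max N 12)) with hC
    have hCC : 2 * C1 ≤ C := le_max_left _ _
    have hn : ∀ j : ℕ, M ≤ bt (T^[j] n) := fun j => bt_ge hM1 (hj j)
    obtain ⟨hr0, -, -, hr2⟩ := hT.2 n
    have hb := bt_pos n hT
    have hM2 : 0 < M ^ 2 := by positivity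
    have hδ := delta_pos hK hT hMB
    have hδ1 := delta_le hK hT hMB
    have e1 : 2 * (C1 / M ^ 2) ≤ C / M ^ 2 := by
      rw [← mul_div_assoc]; gcongr
    have hout : ∀ z ∈ FatouComponent f₀ (n : ℂ), ‖z - n‖ ≤ (1 + 2 * (C1 / M ^ 2)) * rho n :=
      fun z hz => outer hK hT hS hMB hw hn hz
    have hsub5 : FatouComponent f₀ (n : ℂ) ⊆ ball (n : ℂ) (5 / bt n) := by
      intro z hz
      rw [mem_ball, dist_eq_norm, lt_div_iff₀ hb]
      have h1 := hout z hz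
      have h2 : (1 + 2 * (C1 / M ^ 2)) * rho n ≤ 11 / 10 * rho n := by
        apply mul_le_mul_of_nonneg_right _ hr0.le
        linarith
      nlinarith
    refine ⟨?_, ?_, ?_, ?_⟩
    · refine Subset.trans (ball_subset_ball ?_) (inner hK hT hMB hw hn)
      rw [le_div_iff₀ (by linarith)]
      have h1 : (1 - C / M ^ 2) * (1 + C1 / M ^ 2) ≤ 1 := by
        have h2 : (1 - C / M ^ 2) * (1 + C1 / M ^ 2) ≤ (1 - C1 / M ^ 2) * (1 + C1 / M ^ 2) := by
          apply mul_le_mul_of_nonneg_right _ (by linarith)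
          linarith
        nlinarith
      nlinarith
    · intro z hz
      rw [mem_closedBall, dist_eq_norm]
      refine (hout z hz).trans ?_
      apply mul_le_mul_of_nonneg_right _ hr0.le
      linarith
    · intro z hz hzn
      refine (hK.low n (hMB.trans (hn 0)) z ?_).2 hzn
      have h1 := hsub5 hz
      rw [mem_ball, dist_eq_norm, lt_div_iff₀ hb] at h1
      have h2 : M ≤ bt n := hn 0
      nlinarith [norm_nonneg (z - n)]
    · intro w hwU hwn
      obtain ⟨σ, hσ1, hσ2, hσ3, hσ4⟩ := hNI n (hMN.trans (hn 0))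
      exact two_preimages hB hsub5 hσ1 hσ2 hσ3 hσ4 hwU hwn

end Pool.Agent.Y282.WD
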