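import Pool.Agent.Y282.WD.Fast

/-!
The wandering domains of `f₀` which contain integers have no holes.
-/

set_option autoImplicit false

open Filter Topology Metric Set

namespace Pool.Agent.Y282.WD

open Pool.Agent.H384R2.Fatou Pool.Agent.H723R2.LSW

theorem near_normal' {n : ℤ} (hw : Wild n) {V : Set ℂ} {M : ℝ}
    (h : ∀ᶠ j : ℕ in atTop, ∀ z ∈ V, ‖f₀^[j] z - ((T^[j] n : ℤ) : ℂ)‖ ≤ M) :
    NormalOn (fun k => f₀^[k]) V := by
  intro φ
  obtain ⟨ψ, hψ, ⟨c, hc⟩ | hinf⟩ := exists_subseq' φ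
  · refine ⟨ψ, hψ, Or.inl ⟨f₀^[c], ?_⟩⟩
    have : (fun j => f₀^[φ (ψ j)]) = fun _ : ℕ => f₀^[c] := by
      funext j; rw [hc j]
    show TendstoLocallyUniformlyOn (fun j => f₀^[φ (ψ j)]) (f₀^[c]) atTop V
    rw [this]
    exact tlu_const _ _
  · refine ⟨ψ, hψ, Or.inr ?_⟩
    intro K hK _ R
    have h1 := (wild_tendsto hw).comp hinf
    filter_upwards [h1.eventually (eventually_ge_atTop (R + M)), hinf.eventually h] with j hj h2' z hz
    have h2 := h2' z (hK hz)
    have h4 : ‖((T^[φ (ψ j)] n : ℤ) : ℂ)‖ = |((T^[φ (ψ j)] n : ℤ) : ℝ)| := Complex.norm_intCast _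
    have h5 : ‖((T^[φ (ψ j)] n : ℤ) : ℂ)‖ ≤
        ‖f₀^[φ (ψ j)] z‖ + ‖f₀^[φ (ψ j)] z - ((T^[φ (ψ j)] n : ℤ) : ℂ)‖ := by
      have := norm_sub_norm_le ((T^[φ (ψ j)] n : ℤ) : ℂ) (f₀^[φ (ψ j)] z)
      rw [norm_sub_rev] at this
      linarith
    simp only [Function.comp_apply] at hj
    show R ≤ ‖f₀^[φ (ψ j)] z‖
    linarith

/-- no holes -/
theorem full (hS : S_SCH) {n : ℤ} (hw : Wild n) {V : Set ℂ} (hVo : IsOpen V)
    (hVb : Bornology.IsBounded V) (hVf : frontier V ⊆ FatouComponent f₀ (n : ℂ)) :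
    V ⊆ FatouComponent f₀ (n : ℂ) := by
  set U := FatouComponent f₀ (n : ℂ) with hU
  have hfc : IsCompact (frontier V) :=
    hVb.isCompact_closure.of_isClosed_subset isClosed_frontier frontier_subset_closure
  obtain ⟨M, hM⟩ := hS n hw _ hfc hVf
  have hcl : ∀ᶠ j : ℕ in atTop, ∀ z ∈ closure V, ‖f₀^[j] z - ((T^[j] n : ℤ) : ℂ)‖ ≤ M := by
    filter_upwards [hM] with j hj z hz
    exact Complex.norm_le_of_forall_mem_frontier_norm_le hVb
      ((f₀_differentiable.iterate j).sub_const _).diffContOnCl hj hz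
  have hVF : V ⊆ FatouSet f₀ := by
    intro z hz
    obtain ⟨r, hr, hsub⟩ := Metric.isOpen_iff.1 hVo z hz
    refine ⟨r, hr, near_normal' hw (M := M) ?_⟩
    filter_upwards [hcl] with j hj w hwr
    exact hj w (subset_closure (hsub hwr))
  have hcVF : closure V ⊆ FatouSet f₀ := by
    intro z hz
    by_cases h : z ∈ V
    · exact hVF h
    · apply connectedComponentIn_subset (FatouSet f₀) (n : ℂ)
      apply hVf
      rw [frontier, hVo.interior_eq]
      exact ⟨hz, h⟩
  intro z hz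
  by_contra hzU
  set W := FatouComponent f₀ z with hW
  have hzW : z ∈ W := mem_connectedComponentIn (hVF hz)
  have hWo : IsOpen W := component_isOpen f₀ z
  have hWU : ∀ p, p ∈ W → p ∉ U := by
    intro p hpW hpU
    have e1 : W = FatouComponent f₀ p := connectedComponentIn_eq hpW
    have e2 : U = FatouComponent f₀ p := connectedComponentIn_eq hpU
    apply hzU
    rw [e2, ← e1]; exact hzW
  have hWp : IsPreconnected W := isPreconnected_connectedComponentIn
  have hWV : W ⊆ V := by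
    apply hWp.subset_of_closure_inter_subset hVo ⟨z, hzW, hz⟩
    rintro p ⟨hp1, hp2⟩
    by_contra hpV
    apply hWU p hp2
    apply hVf
    rw [frontier, hVo.interior_eq]
    exact ⟨hp1, hpV⟩
  -- a frontier point of `W`
  have hWb : Bornology.IsBounded W := hVb.subset hWV
  have hWne : W ≠ univ := by
    intro h
    rw [h] at hWb
    exact NormedSpace.unbounded_univ ℝ ℂ hWb
  obtain ⟨p, hp⟩ : (frontier W).Nonempty := by
    rw [nonempty_iff_ne_empty]
    intro h
    rw [← isClopen_iff_frontier_eq_empty] at h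
    rcases isClopen_iff.1 h with h | h
    · rw [h] at hzW; exact hzW
    · exact hWne h
  have hpc : p ∈ closure W := frontier_subset_closure hp
  have hpF : p ∈ FatouSet f₀ := hcVF (closure_mono hWV hpc)
  have hpp : p ∈ FatouComponent f₀ p := mem_connectedComponentIn hpF
  obtain ⟨x, hx1, hx2⟩ := mem_closure_iff.1 hpc _ (component_isOpen f₀ p) hpp
  have e1 : FatouComponent f₀ p = FatouComponent f₀ x := connectedComponentIn_eq hx1
  have e2 : W = FatouComponent f₀ x := connectedComponentIn_eq hx2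
  have hpW : p ∈ W := by rw [e2, ← e1]; exact hpp
  rw [frontier, hWo.interior_eq] at hp
  exact hp.2 hpW

end Pool.Agent.Y282.WD
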