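import Pool.Agent.Y282.WD.Main

/-!
Geometry of the wandering domains of `f₀` which contain integers: speed of convergence, boundedness,
surjectivity, the shrinking of the components.
-/

set_option autoImplicit false

open Filter Topology Metric Set

namespace Pool.Agent.Y282.WD

open Pool.Agent.H384R2.Fatou Pool.Agent.H723R2.LSW

/-- superexponential convergence to the orbit of `n` -/
def Good (n : ℤ) (z : ℂ) : Prop :=
  ∃ q : ℝ, 0 ≤ q ∧ q < 1 ∧ ∀ᶠ j : ℕ in atTop, ‖f₀^[j] z - ((T^[j] n : ℤ) : ℂ)‖ ≤ q ^ (2 ^ j)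

theorem f₀_iter_mem (n : ℤ) (k : ℕ) {z : ℂ} (hz : z ∈ FatouComponent f₀ (n : ℂ)) :
    f₀^[k] z ∈ FatouComponent f₀ ((T^[k] n : ℤ) : ℂ) := by
  have h := component_map f₀_differentiable.continuous f₀_open (int_mem_fatou n) k ⟨z, hz, rfl⟩
  rwa [f₀_iter] at h

section
variable {A C1 B c : ℝ} (hK : Consts A C1 B c) (hT : S_TAIL)
include hK hT

theorem eventually_big {n : ℤ} (hw : Wild n) (B' : ℝ) :
    ∀ᶠ J : ℕ in atTop, ∀ j : ℕ, B' ≤ bt (T^[j] (T^[J] n)) := by
  obtain ⟨J, hJ⟩ := eventually_atTop.1 ((bt_tendsto hK hT hw).eventually (eventually_ge_atTop B'))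
  filter_upwards [eventually_ge_atTop J] with i hi j
  rw [← Function.iterate_add_apply]
  exact hJ (j + i) (by omega)

theorem good_of {n : ℤ} {z : ℂ} {J : ℕ} (hJ : ∀ j : ℕ, B ≤ bt (T^[j] (T^[J] n)))
    (hz : (1 + C1 / B ^ 2) * ‖f₀^[J] z - ((T^[J] n : ℤ) : ℂ)‖ < rho (T^[J] n)) : Good n z := by
  have hr0 := (hT.2 (T^[J] n)).1
  have hδ := delta_pos hK hT (B' := B) le_rfl
  set p : ℝ := (1 + C1 / B ^ 2) * ‖f₀^[J] z - ((T^[J] n : ℤ) : ℂ)‖ / rho (T^[J] n) with hp
  have hp0 : 0 ≤ p := by positivity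
  have hp1 : p < 1 := by rw [hp, div_lt_one hr0]; exact hz
  have h1 := inner_close hK hT (B' := B) le_rfl hJ (z := f₀^[J] z) (q := p) hp0 hp1.le (by
    rw [hp, div_mul_cancel₀ _ hr0.ne'])
  refine ⟨p ^ ((1 : ℝ) / 2 ^ J), by positivity, Real.rpow_lt_one hp0 hp1 (by positivity), ?_⟩
  filter_upwards [eventually_ge_atTop J] with j hj
  obtain ⟨i, rfl⟩ : ∃ i, j = i + J := ⟨j - J, by omega⟩
  have h2 := h1 i
  rw [Function.iterate_add_apply, Function.iterate_add_apply]
  refine h2.trans (le_of_eq ?_)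
  rw [← Real.rpow_natCast, ← Real.rpow_natCast, ← Real.rpow_mul hp0]
  congr 1
  push_cast
  rw [pow_add]
  field_simp

theorem good_small {n : ℤ} {z : ℂ} (hz : Good n z) {ε : ℝ} (hε : 0 < ε) :
    ∀ᶠ j : ℕ in atTop, ‖f₀^[j] z - ((T^[j] n : ℤ) : ℂ)‖ < ε * rho (T^[j] n) := by
  obtain ⟨q, hq0, hq1, hq⟩ := hz
  have hb0 := bt_pos n hT
  have h4 : Tendsto (fun j : ℕ => ((2 ^ j : ℕ) : ℝ) * q ^ (2 ^ j)) atTop (𝓝 0) :=
    (tendsto_self_mul_const_pow_of_lt_one hq0 hq1).comp
      (tendsto_pow_atTop_atTop_of_one_lt (by norm_num : (1 : ℕ) < 2))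
  have h5 := h4.eventually (gt_mem_nhds (show (0 : ℝ) < ε / (2 * bt n) by positivity))
  filter_upwards [hq, h5] with j h1 h2
  refine lt_of_le_of_lt h1 ?_
  obtain ⟨hr0, -, hr1, -⟩ := hT.2 (T^[j] n)
  have h3 := bt_iter_le hK hT n j
  rw [lt_div_iff₀ (by positivity)] at h2
  push_cast at h2
  have h6 : 1 ≤ 2 * (bt n * 2 ^ j) * rho (T^[j] n) := by
    refine hr1.trans ?_
    gcongr
  have h7 : (0 : ℝ) ≤ q ^ (2 ^ j) := by positivity
  calc q ^ (2 ^ j) ≤ q ^ (2 ^ j) * (2 * (bt n * 2 ^ j) * rho (T^[j] n)) := by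
        nlinarith
    _ = (2 ^ j * q ^ (2 ^ j) * (2 * bt n)) * rho (T^[j] n) := by ring
    _ < ε * rho (T^[j] n) := by gcongr

theorem fast (hS : S_SCH) (hH : S_HAR) {n : ℤ} (hw : Wild n) {z : ℂ}
    (hz : z ∈ FatouComponent f₀ (n : ℂ)) : Good n z := by
  set U := FatouComponent f₀ (n : ℂ) with hU
  have hnU : (n : ℂ) ∈ U := mem_connectedComponentIn (int_mem_fatou n)
  have hUo : IsOpen U := component_isOpen f₀ n
  have hUp : IsPreconnected U := isPreconnected_connectedComponentIn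
  set δ := C1 / B ^ 2 with hδ
  have hδ0 : 0 < δ := delta_pos hK hT (B' := B) le_rfl
  have hδ1 : δ ≤ 1 / 20 := delta_le hK hT (B' := B) le_rfl
  obtain ⟨J0, hJ0⟩ := eventually_atTop.1 (eventually_big hK hT hw B)
  set G : Set ℂ := {z | z ∈ U ∧ Good n z} with hG
  set Bd : Set ℂ := {z | z ∈ U ∧ ¬ Good n z} with hBd
  have hGo : IsOpen G := by
    rw [Metric.isOpen_iff]
    rintro z ⟨hzU, hzG⟩
    obtain ⟨J1, hJ1⟩ := eventually_atTop.1 (good_small hK hT hzG (ε := 1 / 2) (by norm_num))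
    set J := max J0 J1 with hJ
    have h1 := hJ1 J (le_max_right _ _)
    have hr0 := (hT.2 (T^[J] n)).1
    have hu0 := norm_nonneg (f₀^[J] z - ((T^[J] n : ℤ) : ℂ))
    have h2 : (1 + δ) * ‖f₀^[J] z - ((T^[J] n : ℤ) : ℂ)‖ < rho (T^[J] n) := by nlinarith
    have hc : Continuous fun w : ℂ => (1 + δ) * ‖f₀^[J] w - ((T^[J] n : ℤ) : ℂ)‖ := by
      have := f₀_differentiable.continuous.iterate J
      fun_prop
    obtain ⟨r, hr, hsub⟩ := Metric.isOpen_iff.1 (hUo.inter (isOpen_lt hc continuous_const)) z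
      ⟨hzU, h2⟩
    exact ⟨r, hr, fun w hw => ⟨(hsub hw).1, good_of hK hT (hJ0 J (le_max_left _ _)) (hsub hw).2⟩⟩
  have hBo : IsOpen Bd := by
    rw [Metric.isOpen_iff]
    rintro z ⟨hzU, hzG⟩
    obtain ⟨r, hr, hsub⟩ := Metric.isOpen_iff.1 hUo z hzU
    refine ⟨r / 2, by linarith, fun w hwz => ⟨hsub (ball_subset_ball (by linarith) hwz), fun hwG => ?_⟩⟩
    obtain ⟨J1, hJ1⟩ := eventually_atTop.1 (good_small hK hT hwG (ε := 1 / 2) (by norm_num))
    set J := max J0 J1 with hJ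
    have h1 := hJ1 J (le_max_right _ _)
    have hbig := hJ0 J (le_max_left _ _)
    have hr0 := (hT.2 (T^[J] n)).1
    have h2 : rho (T^[J] n) ≤ (1 + δ) * ‖f₀^[J] z - ((T^[J] n : ℤ) : ℂ)‖ := by
      by_contra hcon
      push Not at hcon
      exact hzG (good_of hK hT hbig hcon)
    have h3 : ∀ x ∈ ball z r, ‖f₀^[J] x - ((T^[J] n : ℤ) : ℂ)‖ ≤ (1 + 2 * δ) * rho (T^[J] n) := by
      intro x hx
      exact outer hK hT hS le_rfl (wild_iter hw J) hbig (f₀_iter_mem n J (hsub hx))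
    have h4 := hH (fun x => f₀^[J] x - ((T^[J] n : ℤ) : ℂ)) z r _ hr
      ((f₀_differentiable.iterate J).sub_const _).differentiableOn h3 w hwz
    have h5 : (1 - δ) * rho (T^[J] n) ≤ ‖f₀^[J] z - ((T^[J] n : ℤ) : ℂ)‖ := by
      have : (1 - δ) * (1 + δ) ≤ 1 := by nlinarith
      have hu0 := norm_nonneg (f₀^[J] z - ((T^[J] n : ℤ) : ℂ))
      calc (1 - δ) * rho (T^[J] n) ≤ (1 - δ) * ((1 + δ) * ‖f₀^[J] z - ((T^[J] n : ℤ) : ℂ)‖) := by
            have : 0 ≤ 1 - δ := by linarith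
            gcongr
        _ = ((1 - δ) * (1 + δ)) * ‖f₀^[J] z - ((T^[J] n : ℤ) : ℂ)‖ := by ring
        _ ≤ 1 * ‖f₀^[J] z - ((T^[J] n : ℤ) : ℂ)‖ := by gcongr
        _ = _ := one_mul _
    nlinarith
  have hcover : U ⊆ G ∪ Bd := by
    intro x hx
    by_cases h : Good n x
    · exact Or.inl ⟨hx, h⟩
    · exact Or.inr ⟨hx, h⟩
  have hdisj : Disjoint G Bd := by
    rw [Set.disjoint_left]
    rintro x ⟨-, h1⟩ ⟨-, h2⟩
    exact h2 h1
  have hnG : (n : ℂ) ∈ G := by
    refine ⟨hnU, 1 / 2, by norm_num, by norm_num, Filter.Eventually.of_forall fun j => ?_⟩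
    rw [f₀_iter, sub_self, norm_zero]
    positivity
  exact (hUp.subset_left_of_subset_union hGo hBo hdisj hcover ⟨n, hnU, hnG⟩ hz).2

/-- all components are bounded -/
theorem bounded (hS : S_SCH) (hL : S_LOOP) {n : ℤ} (hw : Wild n) (k : ℕ) :
    Bornology.IsBounded (FatouComponent f₀ ((T^[k] n : ℤ) : ℂ)) := by
  obtain ⟨J0, hJ0⟩ := eventually_atTop.1 (eventually_big hK hT hw B)
  have key : ∀ d : ℕ, ∀ i : ℕ, J0 ≤ i + d → Bornology.IsBounded (FatouComponent f₀ ((T^[i] n : ℤ) : ℂ)) := by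
    intro d
    induction d with
    | zero =>
      intro i hi
      apply (isBounded_closedBall (x := ((T^[i] n : ℤ) : ℂ))
        (r := (1 + 2 * (C1 / B ^ 2)) * rho (T^[i] n))).subset
      intro z hz
      rw [mem_closedBall, dist_eq_norm]
      exact outer hK hT hS le_rfl (wild_iter hw i) (hJ0 i (by omega)) hz
    | succ d ih =>
      intro i hi
      obtain ⟨R, hR⟩ := (isBounded_iff_subset_closedBall 0).1 (ih (i + 1) (by omega))
      obtain ⟨m, hm1, hm2⟩ := ((hL R).and (tendsto_natCast_atTop_atTop (R := ℝ) |>.eventually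
        (eventually_gt_atTop |((T^[i] n : ℤ) : ℝ)|))).exists
      have hcont : Continuous fun z : ℂ => max |z.re| |z.im| := by fun_prop
      have h0 : max |(((T^[i] n : ℤ) : ℂ)).re| |(((T^[i] n : ℤ) : ℂ)).im| ≤ 2 * (m : ℝ) + 1 / 2 := by
        rw [Complex.intCast_re, Complex.intCast_im, abs_zero]
        apply max_le
        · have : (0 : ℝ) ≤ m := by positivity
          linarith
        · positivity
      have hlt : ∀ z ∈ FatouComponent f₀ ((T^[i] n : ℤ) : ℂ), max |z.re| |z.im| < 2 * (m : ℝ) + 1 / 2 := by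
        intro z hz
        by_contra hcon
        push Not at hcon
        obtain ⟨w, hwU, hws⟩ := conn_level (isPreconnected_connectedComponentIn
          (F := FatouSet f₀) (x := ((T^[i] n : ℤ) : ℂ))) hcont
          (mem_connectedComponentIn (int_mem_fatou _)) hz h0 hcon
        have h1 := hm1 w hws
        have h2 := f₀_iter_mem (T^[i] n) 1 hwU
        have h3 : f₀ w ∈ FatouComponent f₀ ((T^[i + 1] n : ℤ) : ℂ) := by
          rw [Function.iterate_succ_apply']
          simpa using h2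
        have h4 := hR h3
        rw [mem_closedBall_zero_iff] at h4
        linarith
      apply (isBounded_closedBall (x := (0 : ℂ)) (r := 2 * (2 * (m : ℝ) + 1 / 2))).subset
      intro z hz
      rw [mem_closedBall_zero_iff]
      have h1 := hlt z hz
      rw [max_lt_iff] at h1
      have := Complex.norm_le_abs_re_add_abs_im z
      linarith [h1.1, h1.2]
  exact key J0 k (by omega)

end

/-- a bounded component is mapped onto the next one -/
theorem surj (hB : S_BACK) {m : ℤ} (hb : Bornology.IsBounded (FatouComponent f₀ (m : ℂ))) :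
    f₀ '' FatouComponent f₀ (m : ℂ) = FatouComponent f₀ ((T m : ℤ) : ℂ) := by
  have hmU : (m : ℂ) ∈ FatouComponent f₀ (m : ℂ) := mem_connectedComponentIn (int_mem_fatou m)
  have hUo : IsOpen (FatouComponent f₀ (m : ℂ)) := component_isOpen f₀ m
  have hsub : f₀ '' FatouComponent f₀ (m : ℂ) ⊆ FatouComponent f₀ ((T m : ℤ) : ℂ) := by
    rintro _ ⟨z, hz, rfl⟩
    have := f₀_iter_mem m 1 hz
    simpa using this
  apply Subset.antisymm hsub
  have hpre : IsPreconnected (FatouComponent f₀ ((T m : ℤ) : ℂ)) :=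
    isPreconnected_connectedComponentIn
  apply hpre.subset_of_closure_inter_subset (f₀_open _ hUo)
  · exact ⟨_, hsub ⟨_, hmU, rfl⟩, _, hmU, rfl⟩
  · rintro w ⟨hwc, hwU⟩
    have hc : IsCompact (closure (FatouComponent f₀ (m : ℂ))) := hb.isCompact_closure
    have hc2 : IsClosed (f₀ '' closure (FatouComponent f₀ (m : ℂ))) :=
      (hc.image f₀_differentiable.continuous).isClosed
    have h1 : w ∈ f₀ '' closure (FatouComponent f₀ (m : ℂ)) :=
      closure_minimal (image_mono subset_closure) hc2 hwc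
    obtain ⟨z, hz, rfl⟩ := h1
    have hzF : z ∈ FatouSet f₀ := hB z (connectedComponentIn_subset _ _ hwU)
    have hzV : z ∈ FatouComponent f₀ z := mem_connectedComponentIn hzF
    obtain ⟨p, hp1, hp2⟩ := mem_closure_iff.1 hz _ (component_isOpen f₀ z) hzV
    have e1 : FatouComponent f₀ z = FatouComponent f₀ p := connectedComponentIn_eq hp1
    have e2 : FatouComponent f₀ (m : ℂ) = FatouComponent f₀ p := connectedComponentIn_eq hp2
    refine ⟨z, ?_, rfl⟩
    rw [e2, ← e1]; exact hzV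

/-- integers which are not wild: the components do not shrink -/
theorem tame_not_shrink {n : ℤ} (hn : ¬ Wild n)
    (h : ∀ ε : ℝ, 0 < ε → ∀ᶠ k : ℕ in atTop, FatouComponent f₀ ((T^[k] n : ℤ) : ℂ) ⊆
      ball ((T^[k] n : ℤ) : ℂ) ε) : False := by
  obtain ⟨k, p, a, hp, ha, hk⟩ := tame_hits hn
  have haU : (a : ℂ) ∈ FatouComponent f₀ (a : ℂ) := mem_connectedComponentIn (int_mem_fatou a)
  obtain ⟨r, hr, hsub⟩ := Metric.isOpen_iff.1 (component_isOpen f₀ (a : ℂ)) _ haU
  obtain ⟨K, hK⟩ := eventually_atTop.1 (h (r / 2) (by linarith))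
  have hper : ∀ i : ℕ, T^[p * i + k] n = a := by
    intro i
    rw [Function.iterate_add_apply, hk]
    induction i with
    | zero => rfl
    | succ i ih => rw [mul_add, mul_one, Function.iterate_add_apply, ha, ih]
  have h1 := hK (p * K + k) (by nlinarith)
  rw [hper K] at h1
  have h2 : (a : ℂ) + (r / 2 : ℝ) ∈ ball (a : ℂ) r := by
    rw [mem_ball, dist_eq_norm, add_sub_cancel_left, Complex.norm_real, Real.norm_eq_abs,
      abs_of_pos (by linarith)]
    linarith
  have h3 := h1 (hsub h2)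
  rw [mem_ball, dist_eq_norm, add_sub_cancel_left, Complex.norm_real, Real.norm_eq_abs,
      abs_of_pos (by linarith)] at h3
  linarith

end Pool.Agent.Y282.WD
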