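import Pool.Agent.Y282.WD.Stm

/-!
Geometry of the wandering domains of `f₀` which contain integers: the inner and the outer disc.
-/

set_option autoImplicit false

open Filter Topology Metric Set

namespace Pool.Agent.Y282.WD

open Pool.Agent.H384R2.Fatou Pool.Agent.H723R2.LSW

theorem conn_level {E : Set ℂ} (hE : IsPreconnected E) {φ : ℂ → ℝ} (hφ : Continuous φ) {c z : ℂ}
    (hc : c ∈ E) (hz : z ∈ E) {s : ℝ} (h0 : φ c ≤ s) (hs : s ≤ φ z) : ∃ w ∈ E, φ w = s := by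
  obtain ⟨w, hw, h⟩ := hE.intermediate_value hc hz hφ.continuousOn ⟨h0, hs⟩
  exact ⟨w, hw, h⟩

theorem conn_sphere {E : Set ℂ} (hE : IsPreconnected E) {c z : ℂ} (hc : c ∈ E) (hz : z ∈ E)
    {s : ℝ} (h0 : 0 ≤ s) (hs : s ≤ ‖z - c‖) : ∃ w ∈ E, ‖w - c‖ = s :=
  conn_level hE (φ := fun w => ‖w - c‖) (by fun_prop) hc hz (by simpa using h0) hs

theorem no_growth {t : ℕ → ℝ} {D : ℝ} (h1 : ∀ j, t j ^ 2 ≤ t (j + 1))
    (h2 : ∀ j, t j ≤ D * 2 ^ j) (i : ℕ) : t i ≤ 1 := by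
  by_contra hcon
  push Not at hcon
  set a := t i with ha
  have h3 : ∀ j : ℕ, a ^ (2 ^ j) ≤ t (i + j) := by
    intro j
    induction j with
    | zero => simp [ha]
    | succ j ih =>
      have h4 := h1 (i + j)
      have h5 : (0 : ℝ) ≤ a ^ (2 ^ j) := by positivity
      calc a ^ (2 ^ (j + 1)) = (a ^ (2 ^ j)) ^ 2 := by rw [← pow_mul, pow_succ]
        _ ≤ (t (i + j)) ^ 2 := by gcongr
        _ ≤ t (i + (j + 1)) := by rw [← add_assoc]; exact h4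
  have h4 : Tendsto (fun j : ℕ => ((2 ^ j : ℕ) : ℝ) ^ 1 / a ^ (2 ^ j)) atTop (𝓝 0) :=
    (tendsto_pow_const_div_const_pow_of_one_lt 1 hcon).comp
      (tendsto_pow_atTop_atTop_of_one_lt (by norm_num : (1 : ℕ) < 2))
  have hD : 0 < D * 2 ^ i := by
    have := h2 i
    linarith
  obtain ⟨j, hj⟩ := (h4.eventually (gt_mem_nhds (show (0 : ℝ) < 1 / (D * 2 ^ i) by positivity))).exists
  have h5 := (h3 j).trans (h2 (i + j))
  have h6 : (0 : ℝ) < a ^ (2 ^ j) := by positivity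
  rw [div_lt_div_iff₀ h6 hD] at hj
  push_cast at hj
  rw [pow_add] at h5
  nlinarith

theorem bt_pos (m : ℤ) (hT : S_TAIL) : 0 < bt m := by linarith [(hT.1 m).1]

/-- relative error -/
theorem rel (hN : S_NEAR) {A : ℝ} (hA : 0 < A) : ∃ C1 : ℝ, 1 ≤ C1 ∧ ∀ (m : ℤ) (z : ℂ),
    A ≤ bt m → ‖z - m‖ ≤ A / bt m →
    (1 - C1 / bt m ^ 2) * (bt m * ‖z - m‖ ^ 2) ≤ ‖f₀ z - (T m : ℂ)‖ ∧
    ‖f₀ z - (T m : ℂ)‖ ≤ (1 + C1 / bt m ^ 2) * (bt m * ‖z - m‖ ^ 2) := by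
  obtain ⟨C, hC1, hC⟩ := hN
  have hCA : 0 < C * A * (1 + A) := by
    have : 0 < C := by linarith
    positivity
  refine ⟨C * A * (1 + A) + 1, by linarith, fun m z hb hz => ?_⟩
  have hb0 : 0 < bt m := by linarith
  set h := ‖z - m‖ with hh
  have h0 : 0 ≤ h := norm_nonneg _
  have h1 : h ≤ 1 := hz.trans ((div_le_one hb0).2 hb)
  have h2 : bt m * h ≤ A := by rw [mul_comm]; exact (le_div_iff₀ hb0).1 hz
  have h3 := hC m z h1
  rw [← hh] at h3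
  have h4 : C * h ^ 3 * (1 + bt m * h) ≤ (C * A * (1 + A) + 1) / bt m ^ 2 * (bt m * h ^ 2) := by
    have e : (C * A * (1 + A) + 1) / bt m ^ 2 * (bt m * h ^ 2) =
        (C * A * (1 + A) + 1) * h ^ 2 / bt m := by field_simp
    rw [e, le_div_iff₀ hb0]
    have h5 : C * h ^ 3 * (1 + bt m * h) * bt m = C * h ^ 2 * (bt m * h) * (1 + bt m * h) := by
      ring
    rw [h5]
    have h6 : 0 ≤ bt m * h := by positivity
    calc C * h ^ 2 * (bt m * h) * (1 + bt m * h) ≤ C * h ^ 2 * A * (1 + A) := by gcongr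
      _ ≤ (C * A * (1 + A) + 1) * h ^ 2 := by nlinarith [sq_nonneg h]
  rw [abs_le] at h3
  constructor <;> nlinarith [h3.1, h3.2]

theorem near_normal {n : ℤ} (hw : Wild n) {V : Set ℂ}
    (h : ∀ z ∈ V, ∀ j : ℕ, ‖f₀^[j] z - ((T^[j] n : ℤ) : ℂ)‖ ≤ 1) :
    NormalOn (fun k => f₀^[k]) V := by
  intro φ
  obtain ⟨ψ, hψ, ⟨c, hc⟩ | hinf⟩ := exists_subseq' φ
  · refine ⟨ψ, hψ, Or.inl ⟨f₀^[c], ?_⟩⟩
    have : (fun j => f₀^[φ (ψ j)]) = fun _ : ℕ => f₀^[c] := by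
      funext j; rw [hc j]
    show TendstoLocallyUniformlyOn (fun j => f₀^[φ (ψ j)]) (f₀^[c]) atTop V
    rw [this]
    exact tlu_const _ _
  · refine ⟨ψ, hψ, Or.inr ?_⟩
    intro K hK _ R
    have h1 := (wild_tendsto hw).comp hinf
    filter_upwards [h1.eventually (eventually_ge_atTop (R + 1))] with j hj z hz
    have h2 := h z (hK hz) (φ (ψ j))
    have h4 : ‖((T^[φ (ψ j)] n : ℤ) : ℂ)‖ = |((T^[φ (ψ j)] n : ℤ) : ℝ)| := Complex.norm_intCast _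
    have h5 : ‖((T^[φ (ψ j)] n : ℤ) : ℂ)‖ ≤
        ‖f₀^[φ (ψ j)] z‖ + ‖f₀^[φ (ψ j)] z - ((T^[φ (ψ j)] n : ℤ) : ℂ)‖ := by
      have := norm_sub_norm_le ((T^[φ (ψ j)] n : ℤ) : ℂ) (f₀^[φ (ψ j)] z)
      rw [norm_sub_rev] at this
      linarith
    simp only [Function.comp_apply] at hj
    show R ≤ ‖f₀^[φ (ψ j)] z‖
    linarith

/-- the constants -/
structure Consts (A C1 B c : ℝ) : Prop where
  A6 : 6 ≤ A
  h1 : 1 ≤ C1
  BA : A ≤ B
  BC : 20 * C1 ≤ B ^ 2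
  c0 : 0 < c
  cA : 3 / c ≤ A
  rel : ∀ (m : ℤ) (z : ℂ), A ≤ bt m → ‖z - m‖ ≤ A / bt m →
    (1 - C1 / bt m ^ 2) * (bt m * ‖z - m‖ ^ 2) ≤ ‖f₀ z - (T m : ℂ)‖ ∧
    ‖f₀ z - (T m : ℂ)‖ ≤ (1 + C1 / bt m ^ 2) * (bt m * ‖z - m‖ ^ 2)
  low : ∀ m : ℤ, B ≤ bt m → ∀ z : ℂ, ‖z - m‖ ≤ 1 / 2 →
    c * bt m * ‖z - m‖ ^ 2 ≤ ‖f₀ z - (T m : ℂ)‖ ∧ (z ≠ m → deriv f₀ z ≠ 0)

theorem exists_consts (hN : S_NEAR) (hL : S_LOW) : ∃ A C1 B c : ℝ, Consts A C1 B c := by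
  obtain ⟨c, hc, N, hlow⟩ := hL
  obtain ⟨C1, hC1, hrel⟩ := rel hN (A := max 6 (3 / c)) (lt_of_lt_of_le (by norm_num) (le_max_left _ _))
  refine ⟨max 6 (3 / c), C1, max (max (max 6 (3 / c)) N) (20 * C1), c, le_max_left _ _, hC1,
    (le_max_left _ _).trans (le_max_left _ _), ?_, hc, le_max_right _ _, hrel, fun m hm z hz =>
      hlow m (((le_max_right _ _).trans (le_max_left _ _)).trans hm) z hz⟩
  have h1 : 20 * C1 ≤ max (max (max 6 (3 / c)) N) (20 * C1) := le_max_right _ _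
  nlinarith

section
variable {A C1 B c : ℝ} (hK : Consts A C1 B c) (hT : S_TAIL)
include hK hT

theorem B_pos : 0 < B := by linarith [hK.A6, hK.BA]

theorem delta_le {B' : ℝ} (hB' : B ≤ B') : C1 / B' ^ 2 ≤ 1 / 20 := by
  have h0 : 0 < B := B_pos hK hT
  have h0' : 0 < B' := by linarith
  rw [div_le_div_iff₀ (by positivity) (by norm_num)]
  have := hK.BC
  nlinarith

theorem delta_pos {B' : ℝ} (hB' : B ≤ B') : 0 < C1 / B' ^ 2 := by
  have h0 : 0 < B := B_pos hK hT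
  have h0' : 0 < B' := by linarith
  have := hK.h1
  positivity

theorem delta_m {B' : ℝ} (hB' : B ≤ B') {m : ℤ} (hm : B' ≤ bt m) : C1 / bt m ^ 2 ≤ C1 / B' ^ 2 := by
  have h0 : 0 < B := B_pos hK hT
  have h0' : 0 < B' := by linarith
  have := hK.h1
  gcongr

/-- one step inside -/
theorem step_in {B' : ℝ} (hB' : B ≤ B') {m : ℤ} (hm : B' ≤ bt m) {z : ℂ} {q : ℝ} (hq0 : 0 ≤ q)
    (hq1 : q ≤ 1) (hz : (1 + C1 / B' ^ 2) * ‖z - m‖ ≤ q * rho m) :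
    (1 + C1 / B' ^ 2) * ‖f₀ z - (T m : ℂ)‖ ≤ q ^ 2 * rho (T m) := by
  have h0 : 0 < B := B_pos hK hT
  have hb : 0 < bt m := by linarith
  obtain ⟨hr0, hrT, hr1, hr2⟩ := hT.2 m
  set δ := C1 / B' ^ 2 with hδ
  have hδ0 : 0 < δ := delta_pos hK hT hB'
  have h1 : ‖z - m‖ ≤ rho m := by
    nlinarith [norm_nonneg (z - m)]
  have h2 : ‖z - m‖ ≤ A / bt m := by
    rw [le_div_iff₀ hb]
    nlinarith [hK.A6]
  have h3 := (hK.rel m z (by linarith [hK.BA]) h2).2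
  have h4 := delta_m hK hT hB' hm
  rw [hrT]
  calc (1 + δ) * ‖f₀ z - (T m : ℂ)‖ ≤ (1 + δ) * ((1 + C1 / bt m ^ 2) * (bt m * ‖z - m‖ ^ 2)) := by
        gcongr
    _ ≤ (1 + δ) * ((1 + δ) * (bt m * ‖z - m‖ ^ 2)) := by gcongr
    _ = bt m * ((1 + δ) * ‖z - m‖) ^ 2 := by ring
    _ ≤ bt m * (q * rho m) ^ 2 := by
        have : 0 ≤ (1 + δ) * ‖z - m‖ := by positivity
        gcongr
    _ = q ^ 2 * (bt m * rho m ^ 2) := by ring

/-- the orbits in the inner disc -/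
theorem inner_orbit {B' : ℝ} (hB' : B ≤ B') {n : ℤ} (hn : ∀ j : ℕ, B' ≤ bt (T^[j] n)) {z : ℂ}
    {q : ℝ} (hq0 : 0 ≤ q) (hq1 : q ≤ 1) (hz : (1 + C1 / B' ^ 2) * ‖z - n‖ ≤ q * rho n) (j : ℕ) :
    (1 + C1 / B' ^ 2) * ‖f₀^[j] z - ((T^[j] n : ℤ) : ℂ)‖ ≤ q ^ (2 ^ j) * rho (T^[j] n) := by
  induction j with
  | zero => simpa using hz
  | succ j ih =>
    have h1 := step_in hK hT hB' (hn j) (z := f₀^[j] z) (q := q ^ (2 ^ j)) (by positivity)
      (pow_le_one₀ hq0 hq1) ih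
    rw [Function.iterate_succ_apply', Function.iterate_succ_apply', pow_succ 2 j, pow_mul]
    exact h1

theorem rho_le_one {m : ℤ} (hm : B ≤ bt m) : rho m ≤ 1 := by
  obtain ⟨hr0, hrT, hr1, hr2⟩ := hT.2 m
  have := hK.A6
  have := hK.BA
  nlinarith

theorem inner_close {B' : ℝ} (hB' : B ≤ B') {n : ℤ} (hn : ∀ j : ℕ, B' ≤ bt (T^[j] n)) {z : ℂ}
    {q : ℝ} (hq0 : 0 ≤ q) (hq1 : q ≤ 1) (hz : (1 + C1 / B' ^ 2) * ‖z - n‖ ≤ q * rho n) (j : ℕ) :
    ‖f₀^[j] z - ((T^[j] n : ℤ) : ℂ)‖ ≤ q ^ (2 ^ j) := by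
  have h1 := inner_orbit hK hT hB' hn hq0 hq1 hz j
  have h2 := rho_le_one hK hT (hB'.trans (hn j))
  have h3 := delta_pos hK hT hB'
  have h4 : (0 : ℝ) ≤ q ^ (2 ^ j) := by positivity
  have h5 := norm_nonneg (f₀^[j] z - ((T^[j] n : ℤ) : ℂ))
  nlinarith [mul_le_mul_of_nonneg_left h2 h4]

theorem inner {B' : ℝ} (hB' : B ≤ B') {n : ℤ} (hw : Wild n) (hn : ∀ j : ℕ, B' ≤ bt (T^[j] n)) :
    ball (n : ℂ) (rho n / (1 + C1 / B' ^ 2)) ⊆ FatouComponent f₀ (n : ℂ) := by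
  set δ := C1 / B' ^ 2 with hδ
  have hδ0 : 0 < δ := delta_pos hK hT hB'
  have hr0 := (hT.2 n).1
  have hclose : ∀ z ∈ ball (n : ℂ) (rho n / (1 + δ)), ∀ j : ℕ,
      ‖f₀^[j] z - ((T^[j] n : ℤ) : ℂ)‖ ≤ 1 := by
    intro z hz j
    have h1 := inner_close hK hT hB' hn (z := z) (q := 1) (by norm_num) le_rfl (by
      rw [mem_ball, dist_eq_norm, lt_div_iff₀ (by linarith)] at hz
      rw [← hδ]; linarith) j
    simpa using h1
  apply IsPreconnected.subset_connectedComponentIn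
  · exact (convex_ball _ _).isPreconnected
  · exact mem_ball_self (by positivity)
  · intro z hz
    obtain ⟨r, hr, hsub⟩ := Metric.isOpen_iff.1 isOpen_ball z hz
    exact ⟨r, hr, near_normal hw fun w hw => hclose w (hsub hw)⟩

/-- pulling back the outer disc -/
theorem pull {B' : ℝ} (hB' : B ≤ B') {m : ℤ} (hm : B' ≤ bt m) {E : Set ℂ} (hE : IsPreconnected E)
    (hmE : (m : ℂ) ∈ E)
    (h : ∀ z ∈ E, ‖f₀ z - (T m : ℂ)‖ ≤ (1 + 2 * (C1 / B' ^ 2)) * rho (T m)) :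
    ∀ z ∈ E, ‖z - m‖ ≤ (1 + 2 * (C1 / B' ^ 2)) * rho m := by
  have h0 : 0 < B := B_pos hK hT
  have hb : 0 < bt m := by linarith
  obtain ⟨hr0, hrT, hr1, hr2⟩ := hT.2 m
  set δ := C1 / B' ^ 2 with hδ
  have hδ0 : 0 < δ := delta_pos hK hT hB'
  have hδ1 : δ ≤ 1 / 20 := delta_le hK hT hB'
  intro z hz
  by_contra hcon
  push Not at hcon
  have hs1 : (1 + 2 * δ) * rho m < A / bt m := by
    rw [lt_div_iff₀ hb]
    have := hK.A6
    nlinarith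
  obtain ⟨w, hwE, hws⟩ := conn_sphere hE hmE hz (s := min ‖z - m‖ (A / bt m))
    (le_min (norm_nonneg _) (div_nonneg (by linarith [hK.A6]) hb.le)) (min_le_left _ _)
  have h1 : (1 + 2 * δ) * rho m < ‖w - m‖ := by rw [hws]; exact lt_min hcon hs1
  have h2 : ‖w - m‖ ≤ A / bt m := by rw [hws]; exact min_le_right _ _
  have h3 := (hK.rel m w (by linarith [hK.BA]) h2).1
  have h4 := delta_m hK hT hB' hm
  have h5 := h w hwE
  rw [hrT] at h5
  have h6 : (1 - δ) * (bt m * ‖w - m‖ ^ 2) ≤ ‖f₀ w - (T m : ℂ)‖ := by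
    refine le_trans ?_ h3
    gcongr
  have h7 : (1 + 2 * δ) * rho m * ((1 + 2 * δ) * rho m) < ‖w - m‖ ^ 2 := by
    rw [pow_two]
    exact mul_lt_mul'' h1 h1 (by positivity) (by positivity)
  have h8 : (1 - δ) * (bt m * ((1 + 2 * δ) * rho m * ((1 + 2 * δ) * rho m))) <
      (1 - δ) * (bt m * ‖w - m‖ ^ 2) := by
    apply mul_lt_mul_of_pos_left _ (by linarith)
    exact mul_lt_mul_of_pos_left h7 hb
  have h9 : (1 + 2 * δ) * (bt m * rho m ^ 2) ≤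
      (1 - δ) * (bt m * ((1 + 2 * δ) * rho m * ((1 + 2 * δ) * rho m))) := by
    have e : (1 - δ) * (bt m * ((1 + 2 * δ) * rho m * ((1 + 2 * δ) * rho m))) =
        ((1 - δ) * (1 + 2 * δ)) * ((1 + 2 * δ) * (bt m * rho m ^ 2)) := by ring
    rw [e]
    have : 1 ≤ (1 - δ) * (1 + 2 * δ) := by nlinarith
    have h10 : 0 ≤ (1 + 2 * δ) * (bt m * rho m ^ 2) := by positivity
    nlinarith
  linarith

theorem bt_tendsto {n : ℤ} (hw : Wild n) : Tendsto (fun j => bt (T^[j] n)) atTop atTop := by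
  have h := wild_tendsto hw
  rw [Filter.tendsto_atTop] at h ⊢
  intro b
  filter_upwards [h (b + 1), h 1] with j hj hj1
  unfold bt
  have h1 : |((T^[j] n : ℤ) : ℝ)| ≤ |((T^[j] n : ℤ) : ℝ) + 1 / 2| + 1 / 2 := by
    have := abs_sub_abs_le_abs_sub (((T^[j] n : ℤ) : ℝ)) (-(1 / 2))
    rw [sub_neg_eq_add, abs_neg, abs_of_pos (by norm_num : (0 : ℝ) < 1 / 2)] at this
    linarith
  have h2 : (1 : ℝ) ≤ Real.pi ^ 2 / 4 := by nlinarith [Real.pi_gt_three]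
  have h3 : (0 : ℝ) ≤ |((T^[j] n : ℤ) : ℝ) + 1 / 2| := abs_nonneg _
  nlinarith

theorem bt_iter_le (m : ℤ) (j : ℕ) : bt (T^[j] m) ≤ bt m * 2 ^ j := by
  induction j with
  | zero => simp
  | succ j ih =>
    rw [Function.iterate_succ_apply', pow_succ]
    have := (hT.1 (T^[j] m)).2.1
    linarith

/-- the orbit of a compact connected set is eventually in the outer discs -/
theorem eventually_outer (hS : S_SCH) {B' : ℝ} (hB' : B ≤ B') {n : ℤ} (hw : Wild n)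
    (hn : ∀ j : ℕ, B' ≤ bt (T^[j] n)) {K : Set ℂ} (hKc : IsCompact K) (hKp : IsPreconnected K)
    (hnK : (n : ℂ) ∈ K) (hKU : K ⊆ FatouComponent f₀ (n : ℂ)) :
    ∃ J : ℕ, ∀ z ∈ K, ‖f₀^[J] z - ((T^[J] n : ℤ) : ℂ)‖ ≤ (1 + 2 * (C1 / B' ^ 2)) * rho (T^[J] n) := by
  have h0 : 0 < B := B_pos hK hT
  set δ := C1 / B' ^ 2 with hδ
  have hδ0 : 0 < δ := delta_pos hK hT hB'
  have hδ1 : δ ≤ 1 / 20 := delta_le hK hT hB'
  obtain ⟨M, hM⟩ := hS n hw K hKc hKU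
  have hc := hK.c0
  have hbt := bt_tendsto hK hT hw
  obtain ⟨J1, hJ1⟩ := eventually_atTop.1 hM
  obtain ⟨J2, hJ2⟩ := eventually_atTop.1 (hbt.eventually (eventually_gt_atTop (4 * M / c)))
  -- the images are in the discs of radius 1/2
  have hhalf : ∀ j ≥ max J1 J2, ∀ z ∈ K, ‖f₀^[j] z - ((T^[j] n : ℤ) : ℂ)‖ ≤ 1 / 2 := by
    intro j hj z hz
    by_contra hcon
    push Not at hcon
    have hj1 : J1 ≤ j := (le_max_left _ _).trans hj
    have hj2 : J2 ≤ j := (le_max_right _ _).trans hj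
    have hE : IsPreconnected (f₀^[j] '' K) :=
      hKp.image _ (f₀_differentiable.continuous.iterate j).continuousOn
    obtain ⟨w, ⟨x, hx, rfl⟩, hw2⟩ := conn_sphere hE (c := ((T^[j] n : ℤ) : ℂ))
      ⟨(n : ℂ), hnK, f₀_iter n j⟩ ⟨z, hz, rfl⟩ (s := 1 / 2) (by norm_num) hcon.le
    have h1 := (hK.low (T^[j] n) (hB'.trans (hn j)) (f₀^[j] x) hw2.le).1
    have h2 := hJ1 (j + 1) (by omega) x hx
    rw [Function.iterate_succ_apply', Function.iterate_succ_apply'] at h2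
    have h3 := hJ2 j hj2
    rw [div_lt_iff₀ hc] at h3
    rw [hw2] at h1
    nlinarith
  set J := max J1 J2 with hJ
  refine ⟨J, fun z hz => ?_⟩
  -- first growth argument
  have hy : ∀ i : ℕ, (c / 3) * bt (T^[J + i] n) * ‖f₀^[J + i] z - ((T^[J + i] n : ℤ) : ℂ)‖ ≤ 1 := by
    apply no_growth (t := fun i => (c / 3) * bt (T^[J + i] n) *
      ‖f₀^[J + i] z - ((T^[J + i] n : ℤ) : ℂ)‖) (D := (c / 6) * bt (T^[J] n))
    · intro i
      have h1 := (hK.low (T^[J + i] n) (hB'.trans (hn _)) (f₀^[J + i] z)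
        (hhalf (J + i) (by omega) z hz)).1
      have h2 := (hT.1 (T^[J + i] n)).2.2
      have hb := bt_pos (T^[J + i] n) hT
      have hb2 := bt_pos (T (T^[J + i] n)) hT
      rw [← add_assoc, Function.iterate_succ_apply', Function.iterate_succ_apply']
      set u := ‖f₀^[J + i] z - ((T^[J + i] n : ℤ) : ℂ)‖ with hu
      set b := bt (T^[J + i] n) with hb'
      have hu0 : 0 ≤ u := norm_nonneg _
      calc (c / 3 * b * u) ^ 2 = c / 3 * (b / 3) * (c * b * u ^ 2) := by ring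
        _ ≤ c / 3 * (bt (T (T^[J + i] n))) * (c * b * u ^ 2) := by
            gcongr
            linarith
        _ ≤ c / 3 * (bt (T (T^[J + i] n))) *
            ‖f₀ (f₀^[J + i] z) - ((T (T^[J + i] n) : ℤ) : ℂ)‖ := by gcongr
    · intro i
      have h1 := hhalf (J + i) (by omega) z hz
      have h2 := bt_iter_le hK hT (T^[J] n) i
      rw [← Function.iterate_add_apply, add_comm i J] at h2
      have hb := bt_pos (T^[J + i] n) hT
      have hb' := bt_pos (T^[J] n) hT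
      calc c / 3 * bt (T^[J + i] n) * ‖f₀^[J + i] z - ((T^[J + i] n : ℤ) : ℂ)‖
          ≤ c / 3 * (bt (T^[J] n) * 2 ^ i) * (1 / 2) := by
            gcongr
        _ = c / 6 * bt (T^[J] n) * 2 ^ i := by ring
  have hu : ∀ i : ℕ, ‖f₀^[J + i] z - ((T^[J + i] n : ℤ) : ℂ)‖ ≤ A / bt (T^[J + i] n) := by
    intro i
    have hb := bt_pos (T^[J + i] n) hT
    rw [le_div_iff₀ hb]
    have h1 := hy i
    have h2 := hK.cA
    rw [div_le_iff₀ hc] at h2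
    have h3 : c * (‖f₀^[J + i] z - ((T^[J + i] n : ℤ) : ℂ)‖ * bt (T^[J + i] n)) ≤ 3 := by
      nlinarith
    nlinarith
  -- second growth argument
  have ht : ∀ i : ℕ, (1 - δ) * (‖f₀^[J + i] z - ((T^[J + i] n : ℤ) : ℂ)‖ / rho (T^[J + i] n)) ≤ 1 := by
    apply no_growth (t := fun i => (1 - δ) * (‖f₀^[J + i] z - ((T^[J + i] n : ℤ) : ℂ)‖ /
      rho (T^[J + i] n))) (D := 2 * A)
    · intro i
      have h1 := (hK.rel (T^[J + i] n) (f₀^[J + i] z) (by linarith [hK.BA, hn (J + i)]) (hu i)).1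
      obtain ⟨hr0, hrT, -, -⟩ := hT.2 (T^[J + i] n)
      have hb := bt_pos (T^[J + i] n) hT
      have h4 := delta_m hK hT hB' (hn (J + i))
      rw [← hδ] at h4
      rw [← add_assoc, Function.iterate_succ_apply', Function.iterate_succ_apply', hrT]
      set u := ‖f₀^[J + i] z - ((T^[J + i] n : ℤ) : ℂ)‖ with hu
      set b := bt (T^[J + i] n) with hb'
      set r := rho (T^[J + i] n) with hr'
      have hu0 : 0 ≤ u := norm_nonneg _
      have h5 : (1 - δ) * (b * u ^ 2) ≤ ‖f₀ (f₀^[J + i] z) - ((T (T^[J + i] n) : ℤ) : ℂ)‖ := by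
        refine le_trans ?_ h1
        gcongr
      calc ((1 - δ) * (u / r)) ^ 2 = (1 - δ) * ((1 - δ) * (b * u ^ 2) / (b * r ^ 2)) := by
            field_simp
        _ ≤ (1 - δ) * (‖f₀ (f₀^[J + i] z) - ((T (T^[J + i] n) : ℤ) : ℂ)‖ / (b * r ^ 2)) := by
            have : 0 ≤ 1 - δ := by linarith
            gcongr
    · intro i
      obtain ⟨hr0, -, hr1, -⟩ := hT.2 (T^[J + i] n)
      have hb := bt_pos (T^[J + i] n) hT
      have h1 := hu i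
      have hu0 := norm_nonneg (f₀^[J + i] z - ((T^[J + i] n : ℤ) : ℂ))
      have h2 : ‖f₀^[J + i] z - ((T^[J + i] n : ℤ) : ℂ)‖ / rho (T^[J + i] n) ≤ 2 * A := by
        rw [div_le_iff₀ hr0]
        refine h1.trans ?_
        rw [div_le_iff₀ hb]
        have := hK.A6
        nlinarith
      have h3 : (1 : ℝ) ≤ 2 ^ i := one_le_pow₀ (by norm_num)
      have h4 : 0 ≤ ‖f₀^[J + i] z - ((T^[J + i] n : ℤ) : ℂ)‖ / rho (T^[J + i] n) := by positivity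
      calc (1 - δ) * (‖f₀^[J + i] z - ((T^[J + i] n : ℤ) : ℂ)‖ / rho (T^[J + i] n))
          ≤ 1 * (2 * A) := by
            apply mul_le_mul (by linarith) h2 h4 (by norm_num)
        _ ≤ 2 * A * 2 ^ i := by nlinarith [hK.A6]
  have h1 := ht 0
  obtain ⟨hr0, -, -, -⟩ := hT.2 (T^[J] n)
  simp only [add_zero] at h1
  rw [← mul_div_assoc, div_le_one hr0] at h1
  have h2 : 1 ≤ (1 + 2 * δ) * (1 - δ) := by nlinarith
  have hu0 := norm_nonneg (f₀^[J] z - ((T^[J] n : ℤ) : ℂ))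
  calc ‖f₀^[J] z - ((T^[J] n : ℤ) : ℂ)‖ = 1 * ‖f₀^[J] z - ((T^[J] n : ℤ) : ℂ)‖ := by ring
    _ ≤ (1 + 2 * δ) * (1 - δ) * ‖f₀^[J] z - ((T^[J] n : ℤ) : ℂ)‖ := by gcongr
    _ = (1 + 2 * δ) * ((1 - δ) * ‖f₀^[J] z - ((T^[J] n : ℤ) : ℂ)‖) := by ring
    _ ≤ (1 + 2 * δ) * rho (T^[J] n) := by gcongr

/-- the outer disc -/
theorem outer (hS : S_SCH) {B' : ℝ} (hB' : B ≤ B') {n : ℤ} (hw : Wild n)
    (hn : ∀ j : ℕ, B' ≤ bt (T^[j] n)) {z : ℂ} (hz : z ∈ FatouComponent f₀ (n : ℂ)) :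
    ‖z - n‖ ≤ (1 + 2 * (C1 / B' ^ 2)) * rho n := by
  have hnU : (n : ℂ) ∈ FatouComponent f₀ (n : ℂ) := mem_connectedComponentIn (int_mem_fatou n)
  have hUo : IsOpen (FatouComponent f₀ (n : ℂ)) := component_isOpen f₀ n
  have hUc : IsConnected (FatouComponent f₀ (n : ℂ)) :=
    ⟨⟨_, hnU⟩, isPreconnected_connectedComponentIn⟩
  have hUp := (hUo.isConnected_iff_isPathConnected).1 hUc
  obtain ⟨γ, hγ⟩ := hUp.joinedIn _ hnU _ hz
  have hKc : IsCompact (Set.range γ) := isCompact_range γ.continuous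
  have hKp : IsPreconnected (Set.range γ) := (isConnected_range γ.continuous).isPreconnected
  have hnK : (n : ℂ) ∈ Set.range γ := ⟨0, γ.source⟩
  have hzK : z ∈ Set.range γ := ⟨1, γ.target⟩
  have hKU : Set.range γ ⊆ FatouComponent f₀ (n : ℂ) := by
    rintro _ ⟨t, rfl⟩; exact hγ t
  obtain ⟨J, hJ⟩ := eventually_outer hK hT hS hB' hw hn hKc hKp hnK hKU
  have key : ∀ d : ℕ, d ≤ J → ∀ w ∈ Set.range γ, ‖f₀^[J - d] w - ((T^[J - d] n : ℤ) : ℂ)‖ ≤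
      (1 + 2 * (C1 / B' ^ 2)) * rho (T^[J - d] n) := by
    intro d
    induction d with
    | zero => intro _ w hw; simpa using hJ w hw
    | succ d ih =>
      intro hd w hw
      have ih' := ih (by omega)
      have e : J - d = (J - (d + 1)) + 1 := by omega
      rw [e] at ih'
      have hE : IsPreconnected (f₀^[J - (d + 1)] '' Set.range γ) :=
        hKp.image _ (f₀_differentiable.continuous.iterate _).continuousOn
      apply pull hK hT hB' (hn (J - (d + 1))) hE ⟨(n : ℂ), hnK, f₀_iter n _⟩ _ _ ⟨w, hw, rfl⟩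
      rintro _ ⟨x, hx, rfl⟩
      have h1 := ih' x hx
      rw [Function.iterate_succ_apply', Function.iterate_succ_apply'] at h1
      exact h1
  have h1 := key J le_rfl z hzK
  simpa using h1

end

end Pool.Agent.Y282.WD
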